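import Mathlib

namespace Pool.Agent.Results.MP_285f62_co.TriangleFactorBlowUp

/-- The blow-up `G(t)`: every vertex `v` is replaced by the `t` pairwise non-adjacent vertices
`(v, i)` with `i : Fin t`, and `(u, i)`, `(v, j)` are adjacent iff `u`, `v` are adjacent in `G`. -/
def blowUp {V : Type*} (G : SimpleGraph V) (t : ℕ) : SimpleGraph (V × Fin t) :=
  G.comap Prod.fst

/-- `H` has a triangle factor: there is a family `P` of vertex sets of size three, each spanning
a triangle of `H`, such that every vertex of `H` lies in exactly one member of `P`. -/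
def HasTriangleFactor {W : Type*} (H : SimpleGraph W) : Prop :=
  ∃ P : Set (Finset W), (∀ s ∈ P, H.IsNClique 3 s) ∧ ∀ w : W, ∃! s, s ∈ P ∧ w ∈ s

/-- A convenient sufficient condition: the vertex set is parametrised by triangles. -/
lemma hasTriangleFactor_of_equiv {W : Type*} (H : SimpleGraph W) {ι : Type*}
    (g : ι × Fin 3 ≃ W) (hg : ∀ i a b, a ≠ b → H.Adj (g (i, a)) (g (i, b))) :
    HasTriangleFactor H := by
  classical
  have hinj : ∀ i, Function.Injective (fun a : Fin 3 => g (i, a)) := by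
    intro i a b h
    have := g.injective h
    simpa using this
  refine ⟨Set.range (fun i => (Finset.univ : Finset (Fin 3)).map ⟨fun a => g (i, a), hinj i⟩),
    ?_, ?_⟩
  · rintro s ⟨i, rfl⟩
    refine ⟨?_, by simp⟩
    intro x hx y hy hxy
    simp only [Finset.coe_map, Function.Embedding.coeFn_mk, Finset.coe_univ, Set.image_univ,
      Set.mem_range] at hx hy
    obtain ⟨a, rfl⟩ := hx
    obtain ⟨b, rfl⟩ := hy
    exact hg i a b (fun h => hxy (by rw [h]))
  · intro w
    obtain ⟨⟨i, a⟩, rfl⟩ := g.surjective w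
    refine ⟨(Finset.univ : Finset (Fin 3)).map ⟨fun a => g (i, a), hinj i⟩,
      ⟨⟨i, rfl⟩, ?_⟩, ?_⟩
    · simp
    · rintro s ⟨⟨j, rfl⟩, hs⟩
      simp only [Finset.mem_map, Finset.mem_univ, Function.Embedding.coeFn_mk, true_and] at hs
      obtain ⟨b, hb⟩ := hs
      have := g.injective hb
      simp only [Prod.mk.injEq] at this
      rw [this.1]

/-- Triangle parametrisations of the blow-up with a general index type. -/
def Par {V : Type*} (G : SimpleGraph V) (κ : Type*) : Prop :=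
  ∃ (n : ℕ) (g : Fin n × Fin 3 ≃ V × κ),
    ∀ i a b, a ≠ b → G.Adj (g (i, a)).1 (g (i, b)).1

lemma Par.add {V : Type*} {G : SimpleGraph V} {s t : ℕ} (h1 : Par G (Fin s))
    (h2 : Par G (Fin t)) : Par G (Fin (s + t)) := by
  obtain ⟨n, g, hg⟩ := h1
  obtain ⟨m, g', hg'⟩ := h2
  let e : Fin (n + m) × Fin 3 ≃ V × Fin (s + t) :=
    ((finSumFinEquiv.symm.prodCongr (Equiv.refl _)).trans
      (Equiv.sumProdDistrib _ _ _)).trans
      ((g.sumCongr g').trans
        ((Equiv.prodSumDistrib _ _ _).symm.trans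
          ((Equiv.refl V).prodCongr finSumFinEquiv)))
  refine ⟨n + m, e, ?_⟩
  intro i a b hab
  induction i using Fin.addCases with
  | left i =>
    have key : ∀ c, (e (Fin.castAdd m i, c)).1 = (g (i, c)).1 := by
      intro c
      simp [e, Equiv.prodSumDistrib]
    rw [key, key]
    exact hg i a b hab
  | right i =>
    have key : ∀ c, (e (Fin.natAdd n i, c)).1 = (g' (i, c)).1 := by
      intro c
      simp [e, Equiv.prodSumDistrib]
    rw [key, key]
    exact hg' i a b hab

/-- The edges of the graph, with the three classes `0..3`, `4..7`, `8..11`. -/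
def edgeList : List (ℕ × ℕ) :=
  [(0, 5), (0, 7), (0, 8), (0, 9), (0, 10), (1, 6), (1, 7), (1, 10), (1, 11), (2, 4), (2, 6),
   (2, 8), (2, 10), (3, 4), (3, 5), (3, 9), (3, 11), (4, 8), (4, 11), (5, 9), (5, 10), (6, 10),
   (6, 11), (7, 8), (7, 9), (7, 11)]

def adjB (a b : Fin 12) : Bool :=
  edgeList.contains (a.val, b.val) || edgeList.contains (b.val, a.val)

/-- The graph on twelve vertices. -/
def G12 : SimpleGraph (Fin 12) where
  Adj a b := adjB a b = true
  symm := ⟨by decide⟩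
  loopless := ⟨by decide⟩

instance : DecidableRel G12.Adj := fun a b => inferInstanceAs (Decidable (adjB a b = true))

def fwd2 : Fin 8 × Fin 3 → Fin 12 × Fin 2 := fun p =>
  (![![(0, 0), (5, 0), (9, 0)],
     ![(0, 1), (7, 0), (8, 0)],
     ![(1, 0), (6, 0), (10, 0)],
     ![(1, 1), (7, 1), (11, 0)],
     ![(2, 0), (4, 0), (8, 1)],
     ![(2, 1), (6, 1), (10, 1)],
     ![(3, 0), (4, 1), (11, 1)],
     ![(3, 1), (5, 1), (9, 1)]] : Fin 8 → Fin 3 → Fin 12 × Fin 2) p.1 p.2
def bwd2 : Fin 12 × Fin 2 → Fin 8 × Fin 3 := fun p =>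
  (![![(0, 0), (1, 0)],
     ![(2, 0), (3, 0)],
     ![(4, 0), (5, 0)],
     ![(6, 0), (7, 0)],
     ![(4, 1), (6, 1)],
     ![(0, 1), (7, 1)],
     ![(2, 1), (5, 1)],
     ![(1, 1), (3, 1)],
     ![(1, 2), (4, 2)],
     ![(0, 2), (7, 2)],
     ![(2, 2), (5, 2)],
     ![(3, 2), (6, 2)]] : Fin 12 → Fin 2 → Fin 8 × Fin 3) p.1 p.2
def fwd3 : Fin 12 × Fin 3 → Fin 12 × Fin 3 := fun p =>
  (![![(0, 0), (5, 0), (10, 0)],
     ![(0, 1), (7, 0), (8, 0)],
     ![(0, 2), (7, 1), (9, 0)],
     ![(1, 0), (6, 0), (10, 1)],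
     ![(1, 1), (6, 1), (11, 0)],
     ![(1, 2), (7, 2), (11, 1)],
     ![(2, 0), (4, 0), (8, 1)],
     ![(2, 1), (4, 1), (8, 2)],
     ![(2, 2), (6, 2), (10, 2)],
     ![(3, 0), (4, 2), (11, 2)],
     ![(3, 1), (5, 1), (9, 1)],
     ![(3, 2), (5, 2), (9, 2)]] : Fin 12 → Fin 3 → Fin 12 × Fin 3) p.1 p.2
def bwd3 : Fin 12 × Fin 3 → Fin 12 × Fin 3 := fun p =>
  (![![(0, 0), (1, 0), (2, 0)],
     ![(3, 0), (4, 0), (5, 0)],
     ![(6, 0), (7, 0), (8, 0)],
     ![(9, 0), (10, 0), (11, 0)],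
     ![(6, 1), (7, 1), (9, 1)],
     ![(0, 1), (10, 1), (11, 1)],
     ![(3, 1), (4, 1), (8, 1)],
     ![(1, 1), (2, 1), (5, 1)],
     ![(1, 2), (6, 2), (7, 2)],
     ![(2, 2), (10, 2), (11, 2)],
     ![(0, 2), (3, 2), (8, 2)],
     ![(4, 2), (5, 2), (9, 2)]] : Fin 12 → Fin 3 → Fin 12 × Fin 3) p.1 p.2

lemma par_two : Par G12 (Fin 2) :=
  ⟨8, ⟨fwd2, bwd2, by decide, by decide⟩, by decide⟩

lemma par_three : Par G12 (Fin 3) :=
  ⟨12, ⟨fwd3, bwd3, by decide, by decide⟩, by decide⟩

lemma par_all : ∀ t : ℕ, 2 ≤ t → Par G12 (Fin t) := by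
  intro t
  induction t using Nat.strong_induction_on with
  | _ t ih =>
    intro ht
    rcases Nat.lt_or_ge t 4 with h | h
    · interval_cases t
      · exact par_two
      · exact par_three
    · have h1 := ih (t - 2) (by omega) (by omega)
      have h2 := h1.add par_two
      have h3 : t - 2 + 2 = t := by omega
      rw [h3] at h2
      exact h2

lemma factor_blowUp (t : ℕ) (ht : 2 ≤ t) : HasTriangleFactor (blowUp G12 t) := by
  obtain ⟨n, g, hg⟩ := par_all t ht
  exact hasTriangleFactor_of_equiv _ g hg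

lemma tri_list (s : Finset (Fin 12)) (hs : G12.IsNClique 3 s) :
    s ∈ ({{0, 5, 9}, {0, 5, 10}, {0, 7, 8}, {0, 7, 9}, {1, 6, 10}, {1, 6, 11}, {1, 7, 11},
      {2, 4, 8}, {2, 6, 10}, {3, 4, 11}, {3, 5, 9}} : Finset (Finset (Fin 12))) := by
  have key : ∀ a b c : Fin 12, G12.Adj a b → G12.Adj a c → G12.Adj b c →
    ({a, b, c} : Finset (Fin 12)) ∈ ({{0, 5, 9}, {0, 5, 10}, {0, 7, 8}, {0, 7, 9}, {1, 6, 10},
      {1, 6, 11}, {1, 7, 11}, {2, 4, 8}, {2, 6, 10}, {3, 4, 11}, {3, 5, 9}} :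
      Finset (Finset (Fin 12))) := by
    decide
  rw [SimpleGraph.is3Clique_iff] at hs
  obtain ⟨a, b, c, hab, hac, hbc, rfl⟩ := hs
  exact key a b c hab hac hbc

lemma no_factor : ¬ HasTriangleFactor G12 := by
  rintro ⟨P, hP, hcov⟩
  have disj : ∀ s ∈ P, ∀ t ∈ P, ∀ w, w ∈ s → w ∈ t → s = t := by
    intro s hs t ht w hws hwt
    exact (hcov w).unique ⟨hs, hws⟩ ⟨ht, hwt⟩
  have get : ∀ w : Fin 12, ∃ s ∈ P, w ∈ s ∧
      s ∈ ({{0, 5, 9}, {0, 5, 10}, {0, 7, 8}, {0, 7, 9}, {1, 6, 10}, {1, 6, 11}, {1, 7, 11},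
      {2, 4, 8}, {2, 6, 10}, {3, 4, 11}, {3, 5, 9}} : Finset (Finset (Fin 12))) := by
    intro w
    obtain ⟨s, ⟨hs, hw⟩, -⟩ := hcov w
    exact ⟨s, hs, hw, tri_list s (hP s hs)⟩
  have four : ({2, 4, 8} : Finset (Fin 12)) ∈ P ∨ ({3, 4, 11} : Finset (Fin 12)) ∈ P := by
    obtain ⟨s, hs, hw, hl⟩ := get 4
    simp only [Finset.mem_insert, Finset.mem_singleton] at hl
    rcases hl with rfl | rfl | rfl | rfl | rfl | rfl | rfl | rfl | rfl | rfl | rfl <;>
      first
        | exact absurd hw (by decide)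
        | exact Or.inl hs
        | exact Or.inr hs
  rcases four with h4 | h4
  · have h3 : ({3, 5, 9} : Finset (Fin 12)) ∈ P := by
      obtain ⟨s, hs, hw, hl⟩ := get 3
      simp only [Finset.mem_insert, Finset.mem_singleton] at hl
      rcases hl with rfl | rfl | rfl | rfl | rfl | rfl | rfl | rfl | rfl | rfl | rfl <;>
        first
          | exact absurd hw (by decide)
          | exact hs
          | exact absurd (disj _ hs _ h4 4 (by decide) (by decide)) (by decide)
    obtain ⟨s, hs, hw, hl⟩ := get 0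
    simp only [Finset.mem_insert, Finset.mem_singleton] at hl
    rcases hl with rfl | rfl | rfl | rfl | rfl | rfl | rfl | rfl | rfl | rfl | rfl <;>
      first
        | exact absurd hw (by decide)
        | exact absurd (disj _ hs _ h3 5 (by decide) (by decide)) (by decide)
        | exact absurd (disj _ hs _ h3 9 (by decide) (by decide)) (by decide)
        | exact absurd (disj _ hs _ h4 8 (by decide) (by decide)) (by decide)
  · have h2 : ({2, 6, 10} : Finset (Fin 12)) ∈ P := by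
      obtain ⟨s, hs, hw, hl⟩ := get 2
      simp only [Finset.mem_insert, Finset.mem_singleton] at hl
      rcases hl with rfl | rfl | rfl | rfl | rfl | rfl | rfl | rfl | rfl | rfl | rfl <;>
        first
          | exact absurd hw (by decide)
          | exact hs
          | exact absurd (disj _ hs _ h4 4 (by decide) (by decide)) (by decide)
    obtain ⟨s, hs, hw, hl⟩ := get 1
    simp only [Finset.mem_insert, Finset.mem_singleton] at hl
    rcases hl with rfl | rfl | rfl | rfl | rfl | rfl | rfl | rfl | rfl | rfl | rfl <;>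
      first
        | exact absurd hw (by decide)
        | exact absurd (disj _ hs _ h2 6 (by decide) (by decide)) (by decide)
        | exact absurd (disj _ hs _ h2 10 (by decide) (by decide)) (by decide)
        | exact absurd (disj _ hs _ h4 11 (by decide) (by decide)) (by decide)

/-- There is a balanced tripartite graph `G` on twelve vertices such that `G(t)` has a triangle
factor for every `t ≥ 2`, while `G` itself has none. -/
theorem result :
    ∃ G : SimpleGraph (Fin 12),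
      (∃ c : G.Coloring (Fin 3), ∀ i, (Finset.univ.filter (fun v => c v = i)).card = 4) ∧
      (∀ t : ℕ, 2 ≤ t → HasTriangleFactor (blowUp G t)) ∧
      ¬ HasTriangleFactor G := by
  refine ⟨G12, ⟨SimpleGraph.Coloring.mk (fun v => ![0, 0, 0, 0, 1, 1, 1, 1, 2, 2, 2, 2] v) ?_,
    ?_⟩, factor_blowUp, no_factor⟩
  · intro a b
    revert a b
    decide
  · decide

end Pool.Agent.Results.MP_285f62_co.TriangleFactorBlowUp
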